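import Pool.Agent.U881.HB.Pet2
import Pool.Agent.W315.MD.Final

/-!
# Petersen-minor-free r-graphs and linked pentagons

* `MGraph r ends`: `r`-graphs, that is, loopless `r`-regular multigraphs on `Fin n` (edges `Fin m`) with
  at least `r` edges leaving every odd vertex set.
* `RGraph r p`: the same for the multiplicity function `p` of a multigraph; `gr p`: its underlying simple
  graph; `Cover 1 r p`: it is a union of `r` perfect matchings (class 1).
* `Minor H G`: `H` is a minor of `G`; `pent τ`: two disjoint pentagons `a₀ … a₄`, `b₀ … b₄` and the edges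
  `aₖ b_{τ k}`, `k ≤ 3`, where `τ` is a permutation of `{0, 1, 2, 3}`.
* `Sum3 K` (sums of order at most three), `Piece`: see `SumsAndHubs` and `Pool/Agent/U881/HB`; `Piece5`:
  no linked pentagons, or four hubs, or `Piece`.
* `Brick`: deleting any two vertices leaves a connected graph with a perfect matching; `Sep3`: three
  vertices separate the graph into two parts with at least two vertices each.
-/

set_option autoImplicit false

namespace Pool.Agent.Results.MP_0c2bb8_co.LinkedPentagons

open Finset H76FC H76TX H76TY H76TW Pool.Agent.W315.LB Pool.Agent.U881.HB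

theorem result :
    -- (1) no linked pentagons
    (∀ (r n m : ℕ) (ends : Fin m → Sym2 (Fin n)), MGraph r ends →
      (∀ τ, ¬ Minor (pent τ) (SimpleGraph.fromEdgeSet (Set.range ends))) →
      ∃ c : Fin m → Fin r, ∀ e e', e ≠ e' → (∃ v, v ∈ ends e ∧ v ∈ ends e') → c e ≠ c e') ∧
    -- (2) sums of order at most three of such graphs and others
    (∀ (r n m : ℕ) (ends : Fin m → Sym2 (Fin n)), MGraph r ends →
      ¬ PetMinor (SimpleGraph.fromEdgeSet (Set.range ends)) →
      Sum3 Piece5 (Fin n) (SimpleGraph.fromEdgeSet (Set.range ends)) →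
      ∃ c : Fin m → Fin r, ∀ e e', e ≠ e' → (∃ v, v ∈ ends e ∧ v ∈ ends e') → c e ≠ c e') ∧
    -- (3) smallest counterexamples
    ∀ (V : Type) [Fintype V] [DecidableEq V] (r : ℕ) (p : V → V → ℕ), RGraph r p →
      ¬ PetMinor (gr p) → ¬ Cover 1 r p →
      (∀ (W : Type) [Fintype W] [DecidableEq W] (q : W → W → ℕ),
        Fintype.card W < Fintype.card V → RGraph r q → ¬ PetMinor (gr q) → Cover 1 r q) →
      Brick (gr p) ∧ 14 ≤ Fintype.card V ∧ ¬ Sep3 (gr p) ∧ ∃ τ, Minor (pent τ) (gr p) := by
  have key : ∀ (r n m : ℕ) (ends : Fin m → Sym2 (Fin n)), MGraph r ends →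
      ¬ PetMinor (SimpleGraph.fromEdgeSet (Set.range ends)) →
      Sum3 Piece5 (Fin n) (SimpleGraph.fromEdgeSet (Set.range ends)) →
      ∃ c : Fin m → Fin r, ∀ e e', e ≠ e' → (∃ v, v ∈ ends e ∧ v ∈ ends e') → c e ≠ c e' := by
    intro r n m ends hG hP hS
    obtain ⟨hp, _⟩ := toR r n m ends hG
    refine colouring_of_cover ?_
    rw [coverIff 1 r n m ends hG]
    exact cover_sum4 _ hP (sum_mono piece5_4 hS) _ _ rfl r _ hp gr_minor
  refine ⟨?_, key, ?_⟩
  · intro r n m ends hG hT
    refine key r n m ends hG (fun h => ?_) (Sum3.base _ _ (Or.inl hT))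
    obtain ⟨τ, hτ⟩ := pent_of_pet h
    exact hT τ hτ
  · intro V _ _ r p hp hF hno hmin
    exact smallest_pet hp hF hno hmin

end Pool.Agent.Results.MP_0c2bb8_co.LinkedPentagons
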