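import Pool.Agent.U881.HB.Hub5
import Pool.Agent.W315.MD.Final

/-!
# Petersen-minor-free r-graphs: sums of order three, vertex cuts of order three and four hubs

`MGraph r ends`: loopless `r`-regular multigraph on `Fin n` (edges `Fin m`) with at least `r` edges
leaving every odd vertex set.  `MCover 1 r ends`: `1 * r` perfect matchings covering every edge exactly
once.  `RGraph r p`, `Cover 1 r p`: the same for the multiplicity function `p` of a multigraph; `gr p`:
its underlying simple graph.  `Brick H`: deleting any two vertices of `H` leaves a connected graph with a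
perfect matching.  `PetMinor G`: the Petersen graph is a minor of `G`.
`FourHubs`: at most four vertices meet all paths with three vertices.  `Sum3 K` (sums of order at most
three), `Piece`, `Piece4` (`FourHubs` or `Piece`): see `Pool/Agent/U881/HB`.

The proofs are those of the hand-ins `SumsOfOrderThree` and `FourHubs` of `MP_2d6e82_co`.
-/

set_option autoImplicit false

namespace Pool.Agent.Results.MP_0c2bb8_co.SumsAndHubs

open Finset H76FC H76TX H76TY H76TW Pool.Agent.W315.LB Pool.Agent.U881.HB

theorem result :
    -- (1) sums of order at most three of settled classes are class 1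
    (∀ (r n m : ℕ) (ends : Fin m → Sym2 (Fin n)), MGraph r ends →
      ¬ PetMinor (SimpleGraph.fromEdgeSet (Set.range ends)) →
      Sum3 Piece4 (Fin n) (SimpleGraph.fromEdgeSet (Set.range ends)) → MCover 1 r ends) ∧
    -- (2) vertex cuts of order three in a smallest counterexample
    (∀ (V : Type) [Fintype V] [DecidableEq V] (r : ℕ) (p : V → V → ℕ), RGraph r p →
      ¬ PetMinor (gr p) → Brick (gr p) → ¬ Cover 1 r p →
      (∀ (W : Type) [Fintype W] [DecidableEq W] (q : W → W → ℕ),
        Fintype.card W < Fintype.card V → RGraph r q → ¬ PetMinor (gr q) → Cover 1 r q) →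
      ∀ P Q S : Finset V, Disjoint P Q → Disjoint P S → Disjoint Q S → P ∪ Q ∪ S = univ →
        S.card = 3 → P.Nonempty → Q.Nonempty → (∀ u ∈ P, ∀ v ∈ Q, p u v = 0) →
        P.card = 1 ∨ Q.card = 1) := by
  refine ⟨?_, ?_⟩
  · intro r n m ends hG hP hS
    obtain ⟨hp, _⟩ := toR r n m ends hG
    rw [coverIff 1 r n m ends hG]
    refine cover_sum4 _ hP hS _ _ rfl r _ hp (minor_sub id Function.injective_id ?_)
    intro a b hab
    have hmul : ∀ a b : Fin n, mult ends a b ≠ 0 → ∃ e, ends e = s(a, b) := by
      intro a b huv
      unfold mult at huv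
      obtain ⟨e, he⟩ := Finset.card_pos.1 (Nat.pos_of_ne_zero huv)
      exact ⟨e, (Finset.mem_filter.1 he).2⟩
    unfold gr at hab
    rw [SimpleGraph.fromRel_adj] at hab
    rw [SimpleGraph.fromEdgeSet_adj]
    refine ⟨?_, hab.1⟩
    rcases hab.2 with h1 | h1
    · obtain ⟨e, he⟩ := hmul a b (by omega)
      exact ⟨e, he⟩
    · obtain ⟨e, he⟩ := hmul b a (by omega)
      exact ⟨e, by simp only [id]; rw [he, Sym2.eq_swap]⟩
  · intro V _ _ r p hp hPp hB hno hmin P Q S hPQ hPS hQS hU hS hP hQ hpq
    by_contra hcon
    rw [not_or] at hcon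
    have hP0 := Finset.card_pos.2 hP
    have hQ0 := Finset.card_pos.2 hQ
    have hr : 1 ≤ r := by
      rcases Nat.eq_zero_or_pos r with h | h
      · subst h
        exact absurd (H76TX.cover_zero hp) hno
      · exact h
    refine hno (cover_sep3 hr hp (conn3_of_brick hB) ?_
      ⟨P, Q, S, hPQ, hPS, hQS, hU, hS, by omega, by omega, ?_⟩)
    · intro W _ _ q hW hq hm
      exact hmin W q hW hq (fun h => hPp (pet_minor hm h))
    · intro u hu v hv huv
      rcases Y13.gr_adj p u v huv with h | h
      · exact h.ne' (hpq u hu v hv)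
      · rw [hp.symm] at h
        exact h.ne' (hpq u hu v hv)

end Pool.Agent.Results.MP_0c2bb8_co.SumsAndHubs
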